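import Pool.Agent.H42.NU.Main

/-!
# The c-noncrossing weak order is a lattice for every finite Coxeter group

`cs : CoxeterSystem M W` is a Coxeter system with a finite group `W` and set `S` of simple
reflections, `c` is an arbitrary list of all simple reflections, each occurring once (a standard
Coxeter element `c = s_1 ⋯ s_r`).
-/

set_option autoImplicit false

namespace Pool.Agent.Results.MP_f5354f_co.AllTypes

open Relation

universe u v

section

variable {S : Type u} {W : Type v} [Group W] {M : CoxeterMatrix S} (cs : CoxeterSystem M W)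

/-- `w` has maximal length, that is, `w` is the longest element `w_∘` -/
def IsLongest (w : W) : Prop := ∀ v : W, cs.length v ≤ cs.length w

/-- the relations which identify all reduced words of the longest element -/
def relations : Set (FreeGroup S) :=
  {r | ∃ ω ω' : List S, cs.IsReduced ω ∧ cs.IsReduced ω' ∧ IsLongest cs (cs.wordProd ω) ∧
    cs.wordProd ω' = cs.wordProd ω ∧
    r = (ω.map FreeGroup.of).prod * ((ω'.map FreeGroup.of).prod)⁻¹}

/-- the braid group `B_W` -/
abbrev Braid := PresentedGroup (relations cs)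

/-- the formal copy of the simple reflection `s` in the braid group -/
def gen (s : S) : Braid cs := PresentedGroup.of s

/-- `b` is the product of the generators of the braid group along some reduced word of `w` -/
def IsPositiveLift (w : W) (b : Braid cs) : Prop :=
  ∃ ω : List S, cs.IsReduced ω ∧ cs.wordProd ω = w ∧ (ω.map (gen cs)).prod = b

/-- the positive Artin monoid `B⁺`, as a submonoid of the braid group -/
def posMonoid : Submonoid (Braid cs) := Submonoid.closure (Set.range (gen cs))

/-- a Hurwitz move `(…, a, b, …) ↦ (…, b, b⁻¹ a b, …)` -/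
inductive HurwitzMove {G : Type*} [Group G] : List G → List G → Prop
  | move (l r : List G) (a b : G) : HurwitzMove (l ++ a :: b :: r) (l ++ b :: (b⁻¹ * a * b) :: r)

/-- the dual generators: the entries of the tuples which can be reached from `(s_1, …, s_r)` by
Hurwitz moves and their inverses, where `c` lists `s_1, …, s_r` -/
def dualGenerators (c : List S) : Set (Braid cs) :=
  {t | ∃ τ : List (Braid cs), EqvGen HurwitzMove (c.map (gen cs)) τ ∧ t ∈ τ}

/-- the c-noncrossing weak order on the positive monoid: generated by `b < b t` for `t` a dual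
generator and `b`, `b t` in the positive monoid -/
def NCLe (c : List S) : Braid cs → Braid cs → Prop :=
  ReflTransGen (fun b b' => b ∈ posMonoid cs ∧ b' ∈ posMonoid cs ∧
    ∃ t ∈ dualGenerators cs c, b' = b * t)

end

theorem eqvGen_iff {G : Type*} [Group G] (x y : List G) :
    EqvGen HurwitzMove x y ↔ EqvGen H42.NU.HMove x y := by
  constructor
  · intro h
    induction h with
    | rel _ _ h => obtain ⟨l, r, a, b⟩ := h; exact .rel _ _ (.move l r a b)
    | refl => exact .refl _
    | symm _ _ _ ih => exact .symm _ _ ih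
    | trans _ _ _ _ _ ih₁ ih₂ => exact .trans _ _ _ ih₁ ih₂
  · intro h
    induction h with
    | rel _ _ h => obtain ⟨l, r, a, b⟩ := h; exact .rel _ _ (.move l r a b)
    | refl => exact .refl _
    | symm _ _ _ ih => exact .symm _ _ ih
    | trans _ _ _ _ _ ih₁ ih₂ => exact .trans _ _ _ ih₁ ih₂

theorem dual_eq {S : Type u} {W : Type v} [Group W] {M : CoxeterMatrix S}
    (cs : CoxeterSystem M W) (c : List S) :
    dualGenerators cs c = H42.NU.dg (H42.NU.bgen0 cs) c := by
  ext t
  constructor
  · rintro ⟨τ, h, ht⟩; exact ⟨τ, (eqvGen_iff _ _).mp h, ht⟩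
  · rintro ⟨τ, h, ht⟩; exact ⟨τ, (eqvGen_iff _ _).mpr h, ht⟩

theorem ncLe_eq {S : Type u} {W : Type v} [Group W] {M : CoxeterMatrix S}
    (cs : CoxeterSystem M W) (c : List S) :
    NCLe cs c = ReflTransGen (H42.NU.PStep (H42.NU.bgen0 cs) c) := by
  unfold NCLe
  rw [dual_eq]
  rfl

theorem result {S : Type u} {W : Type v} [Group W] [Finite W] {M : CoxeterMatrix S}
    (cs : CoxeterSystem M W) (c : List S) (hc : c.Nodup) (hc' : ∀ s, s ∈ c) :
    ∃ lift : W → Braid cs,
      (∀ w b, IsPositiveLift cs w b ↔ b = lift w) ∧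
      (∃ _ : Lattice W, ∀ u v : W, u ≤ v ↔ NCLe cs c (lift u) (lift v)) ∧
      (∀ u v : W, NCLe cs c (lift u) (lift v) ↔
        ReflTransGen (fun x y => ∃ t ∈ dualGenerators cs c, lift y = lift x * t) u v) := by
  obtain ⟨lift, hl⟩ := H42.NU.exists_lift cs (H42.NU.bgen0 cs) (H42.NU.artin_bgen0 cs)
  obtain ⟨h1, h2⟩ := H42.NU.nc_main cs hc hc' hl
  refine ⟨lift, fun w b => ⟨?_, ?_⟩, ?_, ?_⟩
  · rintro ⟨ω, hω, rfl, rfl⟩
    exact (H42.NU.lift_wordProd hl hω).symm
  · rintro rfl
    obtain ⟨ω, hω, rfl⟩ := cs.exists_isReduced w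
    exact ⟨ω, hω, rfl, (H42.NU.lift_wordProd hl hω).symm⟩
  · rw [ncLe_eq]
    exact h1
  · rw [ncLe_eq, dual_eq]
    exact h2

end Pool.Agent.Results.MP_f5354f_co.AllTypes
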